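import Pool.Agent.T63.RC.Seq
import Pool.Agent.Results.MP_dd1803_nt.MetricSequences

/-!
# MP_dd1803_nt: Zilber-Pink in split semiabelian varieties, coefficient vectors driven by one real
number

Let `E_i : y² = x³ + A_i x + B_i` be elliptic curves over the complex numbers, `𝔖 = ∏ E_i^(q_i) × G_m^k`, and let
`F_c : 𝔖 ⇢ ℂ^m` be the rational map whose numerators and denominators are the polynomials of multidegree `D` in
the coordinates `x(P_(i,l))`, `u_w` with the integral coefficient vector `c`. `ManyGood c` (starting result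
`MetricSequences`), for a sequence `c_0, c_1, …` of coefficient vectors, means: for ALL elliptic curves, ALL
irreducible `V ⊆ ℂ^m` and all residue classes `c₀` modulo `Q₀` there is a `δ > 0` such that for all large `T` for
at least `δ T` of the `t < T` the vector `c_t` is congruent to `c₀` modulo `Q₀` and the pull-back of `V` under
`F_(c_t)` has no atypical intersections with special subvarieties.

In `MetricSequences` every coefficient has its own multiplier `α_i`. Here ONE real number `α` drives all the
coefficients: `c_{t,i} = ⌊a_{i,t} α⌋`, for arbitrary sequences such that for every integral vector `h ≠ 0` the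
numbers `∑ h_i a_{i,t}`, `t ≥ t₀(h)`, have mutual distances at least `δ(h) > 0` (for example `a_{i,t} = t ^ (e_i)` or
`a_{i,t} = b_i ^ t` with different natural numbers `e_i ≥ 1`, respectively `b_i ≥ 2`). For almost all `α` the sequence
is `ManyGood`.
-/

set_option autoImplicit false

namespace Pool.Agent.Results.MP_dd1803_nt.OneMultiplier

open MeasureTheory
open Pool.Agent.Results.MP_dd1803_nt.RandomMaps (Ind Coeffs)
open Pool.Agent.Results.MP_dd1803_nt.MetricSequences (ManyGood manyGood_of_often)

/-- **One multiplier for all coefficients.** -/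
theorem result {n : ℕ} (q : Fin n → ℕ) (k m : ℕ) (D : Ind q k → ℕ) (hD : ∀ i, 0 < D i)
    (hDq : ∀ j : (i : Fin n) × Fin (q i), q j.1 ≤ D (Sum.inl j))
    (a : Fin m × Fin 2 × ((i : Ind q k) → Fin (D i + 1)) → ℕ → ℝ)
    (ha : ∀ h : Fin m × Fin 2 × ((i : Ind q k) → Fin (D i + 1)) → ℤ, h ≠ 0 →
      ∃ δ : ℝ, 0 < δ ∧ ∃ t₀ : ℕ, ∀ s t : ℕ, t₀ ≤ s → t₀ ≤ t → s ≠ t →
        δ ≤ |∑ i, (h i : ℝ) * a i s - ∑ i, (h i : ℝ) * a i t|) :
    ∀ᵐ α : ℝ, ManyGood (D := D) (fun t i => ⌊a i t * α⌋) := by
  filter_upwards [Pool.Agent.T63.RC.multiplier a ha] with α hα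
  exact manyGood_of_often hD hDq _ fun Q hQ G => hα Q hQ G

end Pool.Agent.Results.MP_dd1803_nt.OneMultiplier
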