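import Pool.Agent.T63.RC.Poly
import Pool.Agent.Results.MP_dd1803_nt.MetricSequences

/-!
# MP_dd1803_nt: Zilber-Pink in split semiabelian varieties, coefficient vectors from the values of
polynomials

Let `E_i : y² = x³ + A_i x + B_i` be elliptic curves over the complex numbers, `𝔖 = ∏ E_i^(q_i) × G_m^k`, and let
`F_c : 𝔖 ⇢ ℂ^m` be the rational map whose numerators and denominators are the polynomials of multidegree `D` in
the coordinates `x(P_(i,l))`, `u_w` with the integral coefficient vector `c`. `ManyGood c` (starting result
`MetricSequences`), for a sequence `c_0, c_1, …` of coefficient vectors, means: for ALL elliptic curves, ALL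
irreducible `V ⊆ ℂ^m` and all residue classes `c₀` modulo `Q₀` there is a `δ > 0` such that for all large `T` for
at least `δ T` of the `t < T` the vector `c_t` is congruent to `c₀` modulo `Q₀` and the pull-back of `V` under
`F_(c_t)` has no atypical intersections with special subvarieties.

Here the coefficient vectors are given explicitly: `c_{t,i} = ⌊P_i(t)⌋` with real polynomials `P_i` such that every
nontrivial integral combination `∑ h_i P_i` has an irrational coefficient besides the constant one (for example
`P_i = β_i x` with `1` and the `β_i` linearly independent over `ℚ`, or `P_i = √2 x ^ i`). The sequence is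
`ManyGood`. (The starting result `ThinSequences` treats generalised polynomials whose largest exponents are not
integers.)
-/

set_option autoImplicit false

namespace Pool.Agent.Results.MP_dd1803_nt.PolynomialSequences

open MeasureTheory
open Pool.Agent.Results.MP_dd1803_nt.RandomMaps (Ind Coeffs)
open Pool.Agent.Results.MP_dd1803_nt.MetricSequences (ManyGood manyGood_of_often)

/-- **The integral parts of the values of polynomials.** -/
theorem result {n : ℕ} (q : Fin n → ℕ) (k m : ℕ) (D : Ind q k → ℕ) (hD : ∀ i, 0 < D i)
    (hDq : ∀ j : (i : Fin n) × Fin (q i), q j.1 ≤ D (Sum.inl j))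
    (P : Fin m × Fin 2 × ((i : Ind q k) → Fin (D i + 1)) → Polynomial ℝ)
    (hP : ∀ h : Fin m × Fin 2 × ((i : Ind q k) → Fin (D i + 1)) → ℤ, h ≠ 0 →
      ∃ l : ℕ, 1 ≤ l ∧ Irrational (∑ i, (h i : ℝ) * (P i).coeff l)) :
    ManyGood (D := D) (fun t i => ⌊(P i).eval (t : ℝ)⌋) :=
  manyGood_of_often hD hDq _ fun Q hQ G => Pool.Agent.T63.RC.polynomials P hP Q hQ G

end Pool.Agent.Results.MP_dd1803_nt.PolynomialSequences
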