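import Pool.Agent.T63.RC.Pow
import Pool.Agent.Results.MP_dd1803_nt.MetricSequences

/-!
# MP_dd1803_nt: Zilber-Pink in split semiabelian varieties, coefficient vectors from the powers
of one real number

Let `E_i : y² = x³ + A_i x + B_i` be elliptic curves over the complex numbers, `𝔖 = ∏ E_i^(q_i) × G_m^k`, and let
`F_c : 𝔖 ⇢ ℂ^m` be the rational map whose numerators and denominators are the polynomials of multidegree `D` in
the coordinates `x(P_(i,l))`, `u_w` with the integral coefficient vector `c`. `ManyGood c` (starting result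
`MetricSequences`), for a sequence `c_0, c_1, …` of coefficient vectors, means: for ALL elliptic curves, ALL
irreducible `V ⊆ ℂ^m` and all residue classes `c₀` modulo `Q₀` there is a `δ > 0` such that for all large `T` for
at least `δ T` of the `t < T` the vector `c_t` is congruent to `c₀` modulo `Q₀` and the pull-back of `V` under
`F_(c_t)` has no atypical intersections with special subvarieties.

Here all the coefficients are integral parts of (multiples of) powers of ONE real number `α > 1`:
`c_{t,i} = ⌊ξ_i α ^ (d_i s_t)⌋`, for arbitrary real numbers `ξ_i ≠ 0`, different positive integers `d_i` and an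
arbitrary increasing sequence `s_0 < s_1 < …` of natural numbers. For almost all `α > 1` the sequence is `ManyGood`.
(In `MetricSequences` every coefficient has its own base `α_i`.)
-/

set_option autoImplicit false

namespace Pool.Agent.Results.MP_dd1803_nt.PowersOfOneNumber

open MeasureTheory
open Pool.Agent.Results.MP_dd1803_nt.RandomMaps (Ind Coeffs)
open Pool.Agent.Results.MP_dd1803_nt.MetricSequences (ManyGood manyGood_of_often)

/-- **The powers of one real number.** -/
theorem result {n : ℕ} (q : Fin n → ℕ) (k m : ℕ) (D : Ind q k → ℕ) (hD : ∀ i, 0 < D i)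
    (hDq : ∀ j : (i : Fin n) × Fin (q i), q j.1 ≤ D (Sum.inl j))
    (d : Fin m × Fin 2 × ((i : Ind q k) → Fin (D i + 1)) → ℕ) (hd : Function.Injective d) (hd0 : ∀ i, 0 < d i)
    (ξ : Fin m × Fin 2 × ((i : Ind q k) → Fin (D i + 1)) → ℝ) (hξ : ∀ i, ξ i ≠ 0) (s : ℕ → ℕ) (hs : StrictMono s) :
    ∀ᵐ α : ℝ, 1 < α → ManyGood (D := D) (fun t i => ⌊ξ i * α ^ (d i * s t)⌋) := by
  filter_upwards [Pool.Agent.T63.RC.powers d hd hd0 ξ hξ s hs] with α hα hα1
  exact manyGood_of_often hD hDq _ fun Q hQ G => hα hα1 Q hQ G

end Pool.Agent.Results.MP_dd1803_nt.PowersOfOneNumber
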