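import Pool.Agent.T63.RC.Walk
import Pool.Agent.Results.MP_dd1803_nt.MetricSequences

/-!
# MP_dd1803_nt: Zilber-Pink in split semiabelian varieties, coefficient vectors on the path of a
random walk

Let `E_i : y² = x³ + A_i x + B_i` be elliptic curves over the complex numbers, `𝔖 = ∏ E_i^(q_i) × G_m^k`, and let
`F_c : 𝔖 ⇢ ℂ^m` be the rational map whose numerators and denominators are the polynomials of multidegree `D` in
the coordinates `x(P_(i,l))`, `u_w` with the integral coefficient vector `c`. `ManyGood c` (starting result
`MetricSequences`), for a sequence `c_0, c_1, …` of coefficient vectors, means: for ALL elliptic curves, ALL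
irreducible `V ⊆ ℂ^m` and all residue classes `c₀` modulo `Q₀` there is a `δ > 0` such that for all large `T` for
at least `δ T` of the `t < T` the vector `c_t` is congruent to `c₀` modulo `Q₀` and the pull-back of `V` under
`F_(c_t)` has no atypical intersections with special subvarieties.

Here the coefficient vectors are the positions `c_t = v + X_0 + … + X_(t-1)` of a random walk with independent,
identically distributed steps in the lattice of all coefficient vectors; no moments are required and the walk may be
periodic; the only condition is that the lattice is generated by the possible steps. Almost surely the path is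
`ManyGood`. (The starting result `RandomOrbits` is about random orbits of groups of matrices, which grow
exponentially.)
-/

set_option autoImplicit false

namespace Pool.Agent.Results.MP_dd1803_nt.RandomWalks

open MeasureTheory ProbabilityTheory
open Pool.Agent.Results.MP_dd1803_nt.RandomMaps (Ind Coeffs)
open Pool.Agent.Results.MP_dd1803_nt.MetricSequences (ManyGood manyGood_of_often)

/-- **Random walks in the lattice of coefficient vectors.** -/
theorem result {n : ℕ} (q : Fin n → ℕ) (k m : ℕ) (D : Ind q k → ℕ) (hD : ∀ i, 0 < D i)
    (hDq : ∀ j : (i : Fin n) × Fin (q i), q j.1 ≤ D (Sum.inl j))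
    (Ω : Type) [MeasurableSpace Ω] (μ : Measure Ω) [IsProbabilityMeasure μ] (v : Coeffs m D)
    (X : ℕ → Ω → Coeffs m D) (hX : ∀ t, Measurable (X t)) (hind : iIndepFun X μ)
    (hid : ∀ t, IdentDistrib (X t) (X 0) μ μ)
    (hgen : AddSubgroup.closure {x : Coeffs m D | μ (X 0 ⁻¹' {x}) ≠ 0} = ⊤) :
    ∀ᵐ ω ∂μ, ManyGood (D := D) (fun t => v + ∑ s ∈ Finset.range t, X s ω) := by
  filter_upwards [Pool.Agent.T63.RC.walks v X hX hind hid hgen] with ω hω
  exact manyGood_of_often hD hDq _ fun Q hQ G => hω Q hQ G

end Pool.Agent.Results.MP_dd1803_nt.RandomWalks
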